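import Mathlib

set_option autoImplicit false

open MeasureTheory Set

namespace Pool.Agent.Helper83.Cake

/-- A piece of cake: a finite union of (possibly degenerate) intervals of `[0,1]`. -/
def IsPiece (Z : Set unitInterval) : Prop :=
  ∃ S : Set (Set unitInterval), S.Finite ∧ (∀ J ∈ S, J.OrdConnected) ∧ Z = ⋃₀ S

/-- A value density: nonnegative, constant on each of finitely many intervals that make up
`[0,1]`, with positive integral over `[0,1]`. -/
structure IsDensity (f : unitInterval → ℝ) : Prop where
  nonneg : ∀ x, 0 ≤ f x
  step : ∃ S : Set (Set unitInterval), S.Finite ∧ (∀ J ∈ S, J.OrdConnected) ∧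
    ⋃₀ S = univ ∧ ∀ J ∈ S, ∃ c : ℝ, ∀ x ∈ J, f x = c
  pos : 0 < ∫ x, f x

/-- The type of value densities. -/
abbrev Density : Type := {f : unitInterval → ℝ // IsDensity f}

/-- The value `∫_Z f` of the set `Z` for an agent with density `f`. -/
noncomputable def value (f : Density) (Z : Set unitInterval) : ℝ := ∫ x in Z, f.1 x

/-- `M` is a mechanism for `n` agents: for every profile `d` of reported densities, `M d` is an
allocation of the whole cake, agent `i` getting the piece `M d i`. -/
structure IsMechanism {n : ℕ} (M : (Fin n → Density) → Fin n → Set unitInterval) : Prop where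
  piece : ∀ d i, IsPiece (M d i)
  disj : ∀ d i j, i ≠ j → Disjoint (M d i) (M d j)
  cover : ∀ d, ⋃ i, M d i = univ

/-- `M` is truthful: an agent `i` with true density `d i` never does better by reporting `f`. -/
def Truthful {n : ℕ} (M : (Fin n → Density) → Fin n → Set unitInterval) : Prop :=
  ∀ (d : Fin n → Density) (i : Fin n) (f : Density),
    value (d i) (M (Function.update d i f) i) ≤ value (d i) (M d i)

lemma IsPiece.measurableSet {Z : Set unitInterval} (h : IsPiece Z) : MeasurableSet Z := by
  obtain ⟨S, hf, hS, rfl⟩ := h
  exact MeasurableSet.sUnion hf.countable (fun J hJ => (hS J hJ).measurableSet)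

lemma value_nonneg (f : Density) (Z : Set unitInterval) : 0 ≤ value f Z :=
  integral_nonneg (fun x => f.2.nonneg x)

end Pool.Agent.Helper83.Cake
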