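import Mathlib
import Pool.Agent.Helper83.CakeDefs

set_option autoImplicit false

open MeasureTheory Set

/-! Proof of MP_b3d40b_lc.AllButOne. -/

namespace Pool.Agent.Helper83.ABO

open Pool.Agent.Helper83.Cake

/-! ### closure properties of pieces -/

lemma isPiece_ordConnected {J : Set unitInterval} (h : J.OrdConnected) : IsPiece J :=
  ⟨{J}, finite_singleton J, by simpa using h, by simp⟩

lemma isPiece_inter {X Y : Set unitInterval} (hX : IsPiece X) (hY : IsPiece Y) :
    IsPiece (X ∩ Y) := by
  obtain ⟨S, Sf, So, rfl⟩ := hX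
  obtain ⟨T, Tf, To, rfl⟩ := hY
  refine ⟨image2 (· ∩ ·) S T, Sf.image2 _ Tf, ?_, ?_⟩
  · rintro J ⟨a, ha, b, hb, rfl⟩
    exact (So a ha).inter (To b hb)
  · ext x
    constructor
    · rintro ⟨⟨a, ha, hxa⟩, ⟨b, hb, hxb⟩⟩
      exact ⟨a ∩ b, ⟨a, ha, b, hb, rfl⟩, hxa, hxb⟩
    · rintro ⟨J, ⟨a, ha, b, hb, rfl⟩, hxa, hxb⟩
      exact ⟨⟨a, ha, hxa⟩, ⟨b, hb, hxb⟩⟩

lemma isPiece_union {X Y : Set unitInterval} (hX : IsPiece X) (hY : IsPiece Y) :
    IsPiece (X ∪ Y) := by
  obtain ⟨S, Sf, So, rfl⟩ := hX
  obtain ⟨T, Tf, To, rfl⟩ := hY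
  refine ⟨S ∪ T, Sf.union Tf, ?_, by rw [sUnion_union]⟩
  rintro J (hJ | hJ)
  · exact So J hJ
  · exact To J hJ

lemma isPiece_compl_ordConnected {J : Set unitInterval} (h : J.OrdConnected) : IsPiece Jᶜ := by
  rcases J.eq_empty_or_nonempty with rfl | ⟨z, hz⟩
  · rw [compl_empty]
    exact isPiece_ordConnected ordConnected_univ
  · have e : Jᶜ = {x | ∀ y ∈ J, x < y} ∪ {x | ∀ y ∈ J, y < x} := by
      ext x
      constructor
      · intro hx
        rcases lt_trichotomy x z with h1 | h1 | h1
        · left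
          intro y hy
          by_contra h2
          exact hx (h.out hy hz ⟨not_lt.1 h2, h1.le⟩)
        · exact absurd (h1 ▸ hz) hx
        · right
          intro y hy
          by_contra h2
          exact hx (h.out hz hy ⟨h1.le, not_lt.1 h2⟩)
      · rintro (hx | hx) hJ
        · exact lt_irrefl _ (hx x hJ)
        · exact lt_irrefl _ (hx x hJ)
    rw [e]
    refine isPiece_union (isPiece_ordConnected ⟨?_⟩) (isPiece_ordConnected ⟨?_⟩)
    · intro a _ b hb x hx y hy
      exact lt_of_le_of_lt hx.2 (hb y hy)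
    · intro a ha b _ x hx y hy
      exact lt_of_lt_of_le (ha y hy) hx.1

lemma isPiece_compl_iUnion {m : ℕ} (J : Fin m → Set unitInterval)
    (h : ∀ i, (J i).OrdConnected) : IsPiece (⋃ i, J i)ᶜ := by
  rw [compl_iUnion]
  induction m with
  | zero =>
    have e : (⋂ i : Fin 0, (J i)ᶜ) = univ := by simp
    rw [e]
    exact isPiece_ordConnected ordConnected_univ
  | succ m ih =>
    have e : (⋂ i : Fin (m + 1), (J i)ᶜ) = (J 0)ᶜ ∩ ⋂ i : Fin m, (J i.succ)ᶜ := by
      ext x
      simp only [mem_iInter, mem_inter_iff, Fin.forall_fin_succ]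
    rw [e]
    exact isPiece_inter (isPiece_compl_ordConnected (h 0)) (ih _ (fun i => h i.succ))

/-! ### grid cells -/

/-- the `k`-th interval `[k/N, (k+1)/N)` of the grid of mesh `1/N` -/
def cell (N k : ℕ) : Set unitInterval :=
  {x | (k : ℝ) / N ≤ (x : ℝ) ∧ (x : ℝ) < ((k : ℝ) + 1) / N}

lemma cell_ordConnected (N k : ℕ) : (cell N k).OrdConnected := by
  refine ⟨fun a ha b hb x hx => ⟨?_, ?_⟩⟩
  · exact ha.1.trans hx.1
  · exact lt_of_le_of_lt hx.2 hb.2

lemma cell_measurable (N k : ℕ) : MeasurableSet (cell N k) := (cell_ordConnected N k).measurableSet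

lemma cell_volume {N k : ℕ} (hk : k < N) : volume.real (cell N k) = 1 / N := by
  have hN : (0 : ℝ) < N := by exact_mod_cast lt_of_le_of_lt (Nat.zero_le k) hk
  have e : Subtype.val '' cell N k = Ico ((k : ℝ) / N) (((k : ℝ) + 1) / N) := by
    ext y
    constructor
    · rintro ⟨x, hx, rfl⟩
      exact hx
    · rintro ⟨h1, h2⟩
      have a0 : 0 ≤ y := le_trans (by positivity) h1
      have a1 : y ≤ 1 := by
        refine h2.le.trans ?_
        rw [div_le_one hN]
        exact_mod_cast hk
      exact ⟨⟨y, a0, a1⟩, ⟨h1, h2⟩, rfl⟩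
  rw [Measure.real, unitInterval.volume_apply, e, Real.volume_Ico, ENNReal.toReal_ofReal]
  · field_simp; ring
  · rw [← sub_div]
    exact div_nonneg (by linarith) hN.le

lemma cell_disjoint {N k l : ℕ} (h : k ≠ l) : Disjoint (cell N k) (cell N l) := by
  have key : ∀ {k l : ℕ}, k < l → Disjoint (cell N k) (cell N l) := by
    intro k l hkl
    rw [Set.disjoint_left]
    rintro x ⟨_, h1⟩ ⟨h2, _⟩
    have h3 : ((k : ℝ) + 1) / N ≤ (l : ℝ) / N := by
      apply div_le_div_of_nonneg_right _ (Nat.cast_nonneg N)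
      exact_mod_cast hkl
    linarith
  rcases lt_or_gt_of_ne h with h1 | h1
  · exact key h1
  · exact (key h1).symm

lemma cell_sub {N q k : ℕ} (hN : 0 < N) (hq : 0 < q) : cell (N * q) (k * q) ⊆ cell N k := by
  have hN' : (0 : ℝ) < N := by exact_mod_cast hN
  have hq' : (1 : ℝ) ≤ q := by exact_mod_cast hq
  rintro x ⟨h1, h2⟩
  have e1 : (((k * q : ℕ) : ℝ)) / ((N * q : ℕ) : ℝ) = (k : ℝ) / N := by
    push_cast
    field_simp
  rw [e1] at h1
  refine ⟨h1, lt_of_lt_of_le h2 ?_⟩
  push_cast
  rw [div_le_div_iff₀ (by positivity) hN']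
  nlinarith [mul_pos hN' (by linarith : (0 : ℝ) < q)]

lemma cell_cover {N : ℕ} (hN : 0 < N) {x : unitInterval} (hx : x ≠ 1) :
    ∃ k < N, x ∈ cell N k := by
  have hN' : (0 : ℝ) < N := by exact_mod_cast hN
  have h0 : (0 : ℝ) ≤ x := x.2.1
  have h1 : (x : ℝ) < 1 := lt_of_le_of_ne x.2.2 (fun h => hx (Subtype.ext h))
  have h2 : (0 : ℝ) ≤ x * N := mul_nonneg h0 hN'.le
  refine ⟨⌊(x : ℝ) * N⌋₊, ?_, ?_, ?_⟩
  · rw [Nat.floor_lt h2]
    nlinarith
  · rw [div_le_iff₀ hN']
    exact Nat.floor_le h2
  · rw [lt_div_iff₀ hN']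
    exact Nat.lt_floor_add_one _

open Classical in
lemma card_cells {N m : ℕ} {a b : unitInterval}
    (h : (m : ℝ) + 2 ≤ ((b : ℝ) - a) * N) :
    m ≤ ((Finset.range N).filter (fun k => cell N k ⊆ Icc a b)).card := by
  rcases Nat.eq_zero_or_pos N with rfl | hN
  · have : (0 : ℝ) ≤ m := Nat.cast_nonneg m
    simp at h
    linarith
  have hN' : (0 : ℝ) < N := by exact_mod_cast hN
  have ha0 : (0 : ℝ) ≤ a := a.2.1
  have hb1 : (b : ℝ) ≤ 1 := b.2.2
  have haN : (0 : ℝ) ≤ a * N := mul_nonneg ha0 hN'.le
  have hbN : (0 : ℝ) ≤ b * N := mul_nonneg b.2.1 hN'.le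
  have hsub : Finset.Ico ⌈(a : ℝ) * N⌉₊ ⌊(b : ℝ) * N⌋₊ ⊆
      (Finset.range N).filter (fun k => cell N k ⊆ Icc a b) := by
    intro k hk
    rw [Finset.mem_Ico] at hk
    rw [Finset.mem_filter, Finset.mem_range]
    have h1 : (a : ℝ) * N ≤ k := Nat.ceil_le.1 hk.1
    have h2 : ((k : ℝ) + 1) ≤ b * N := by
      have := (Nat.le_floor_iff hbN).1 (Nat.succ_le_of_lt hk.2)
      push_cast at this
      exact this
    refine ⟨?_, ?_⟩
    · have : (k : ℝ) < N := by nlinarith
      exact_mod_cast this
    · rintro x ⟨h3, h4⟩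
      rw [div_le_iff₀ hN'] at h3
      rw [lt_div_iff₀ hN'] at h4
      constructor
      · have : (a : ℝ) ≤ x := by
          by_contra hc
          push Not at hc
          nlinarith
        exact this
      · have : (x : ℝ) ≤ b := by
          by_contra hc
          push Not at hc
          nlinarith
        exact this
  refine le_trans ?_ (Finset.card_le_card hsub)
  rw [Nat.card_Ico]
  have h5 : ((⌈(a : ℝ) * N⌉₊ : ℕ) : ℝ) < a * N + 1 := Nat.ceil_lt_add_one haN
  have h6 : (b : ℝ) * N < (⌊(b : ℝ) * N⌋₊ : ℕ) + 1 := Nat.lt_floor_add_one _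
  have h7 : ((m + ⌈(a : ℝ) * N⌉₊ : ℕ) : ℝ) < ((⌊(b : ℝ) * N⌋₊ : ℕ) : ℝ) + 1 := by
    push_cast
    nlinarith
  have h8 : m + ⌈(a : ℝ) * N⌉₊ < ⌊(b : ℝ) * N⌋₊ + 1 := by exact_mod_cast h7
  omega

/-! ### densities -/

lemma integrable (f : Density) : Integrable f.1 := by
  by_contra h
  have := f.2.pos
  rw [integral_undef h] at this
  exact lt_irrefl _ this

/-- a density has an interval on which it takes its (essential) maximum -/
lemma exists_top (f : Density) : ∃ (a b : unitInterval) (c : ℝ), a < b ∧ 0 < c ∧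
    (∀ x ∈ Icc a b, f.1 x = c) ∧ ∀ᵐ x, f.1 x ≤ c := by
  classical
  obtain ⟨S, Sf, So, SU, hc⟩ := f.2.step
  choose! c hc using hc
  set S' := Sf.toFinset.filter (fun J => volume J ≠ 0) with hS'
  have hne : S'.Nonempty := by
    by_contra hemp
    rw [Finset.not_nonempty_iff_eq_empty] at hemp
    have h0 : volume (⋃₀ S) = 0 := by
      rw [measure_sUnion_null_iff Sf.countable]
      intro J hJ
      by_contra h1
      have : J ∈ S' := by
        rw [hS', Finset.mem_filter]
        exact ⟨Sf.mem_toFinset.2 hJ, h1⟩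
      rw [hemp] at this
      exact absurd this (Finset.notMem_empty _)
    rw [SU] at h0
    simp at h0
  obtain ⟨J, hJ, hmax⟩ := Finset.exists_max_image S' c hne
  rw [hS', Finset.mem_filter, Sf.mem_toFinset] at hJ
  have hae : ∀ᵐ x, f.1 x ≤ c J := by
    rw [ae_iff]
    have hsub : {x | ¬ f.1 x ≤ c J} ⊆ ⋃₀ {K ∈ S | volume K = 0} := by
      intro x hx
      have hxU : x ∈ ⋃₀ S := by rw [SU]; trivial
      obtain ⟨K, hK, hxK⟩ := hxU
      refine ⟨K, ⟨hK, ?_⟩, hxK⟩
      by_contra h1
      have h2 := hmax K (by rw [hS', Finset.mem_filter]; exact ⟨Sf.mem_toFinset.2 hK, h1⟩)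
      apply hx
      rw [hc K hK x hxK]
      exact h2
    refine measure_mono_null hsub ?_
    rw [measure_sUnion_null_iff (Sf.subset (sep_subset _ _)).countable]
    exact fun K hK => hK.2
  have hpos : 0 < c J := by
    by_contra h1
    push Not at h1
    have h2 : ∫ x, f.1 x ≤ 0 := by
      apply integral_nonpos_of_ae
      filter_upwards [hae] with x hx
      exact hx.trans h1
    linarith [f.2.pos]
  have hnt : J.Nontrivial := by
    rw [← Set.not_subsingleton_iff]
    intro hs
    exact hJ.2 (hs.measure_zero volume)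
  obtain ⟨a, ha, b, hb, hab⟩ := hnt
  rcases lt_or_gt_of_ne hab with h1 | h1
  · exact ⟨a, b, c J, h1, hpos, fun x hx => hc J hJ.1 x ((So J hJ.1).out ha hb hx), hae⟩
  · exact ⟨b, a, c J, h1, hpos, fun x hx => hc J hJ.1 x ((So J hJ.1).out hb ha hx), hae⟩

lemma value_cell_le {f : Density} {c : ℝ} (h : ∀ᵐ x, f.1 x ≤ c) {N k : ℕ} (hk : k < N) :
    value f (cell N k) ≤ c / N := by
  have h1 : value f (cell N k) ≤ ∫ _ in cell N k, c :=
    setIntegral_mono_ae (integrable f).integrableOn (integrable_const c).integrableOn h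
  rw [setIntegral_const, cell_volume hk, smul_eq_mul] at h1
  linarith [show 1 / (N : ℝ) * c = c / N by ring]

lemma value_cell_eq {f : Density} {c : ℝ} {a b : unitInterval} (h : ∀ x ∈ Icc a b, f.1 x = c)
    {N k : ℕ} (hk : k < N) (hs : cell N k ⊆ Icc a b) : value f (cell N k) = c / N := by
  have h1 : value f (cell N k) = ∫ _ in cell N k, c :=
    setIntegral_congr_fun (cell_measurable N k) (fun x hx => h x (hs hx))
  rw [h1, setIntegral_const, cell_volume hk, smul_eq_mul]
  ring

lemma exists_cell_pos (f : Density) {N : ℕ} (hN : 0 < N) : ∃ k < N, 0 < value f (cell N k) := by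
  by_contra hcon
  push Not at hcon
  have h0 : ∀ k ∈ Finset.range N, ∫ x in cell N k, f.1 x = 0 := by
    intro k hk
    exact le_antisymm (hcon k (Finset.mem_range.1 hk)) (value_nonneg f _)
  have h1 : ∫ x in ⋃ k ∈ Finset.range N, cell N k, f.1 x = 0 := by
    rw [integral_biUnion_finset]
    · exact Finset.sum_eq_zero h0
    · exact fun k _ => cell_measurable N k
    · exact fun k _ l _ hkl => cell_disjoint hkl
    · exact fun k _ => (integrable f).integrableOn
  have h2 : ∫ x in ⋃ k ∈ Finset.range N, cell N k, f.1 x = ∫ x in univ, f.1 x := by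
    apply setIntegral_congr_set
    rw [ae_eq_univ]
    refine measure_mono_null (t := {1}) ?_ (measure_singleton 1)
    intro x hx
    by_contra h3
    obtain ⟨k, hk, hxk⟩ := cell_cover hN h3
    exact hx (mem_biUnion (Finset.mem_coe.2 (Finset.mem_range.2 hk)) hxk)
  rw [setIntegral_univ] at h2
  linarith [f.2.pos]

/-! ### resolution of a density -/

/-- `r` is a resolution of `f`: the grid of mesh `2^-r` has more than `m` cells inside some interval
on which `f` is maximal -/
def IsRes (m : ℕ) (f : Density) (r : ℕ) : Prop :=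
  ∃ (a b : unitInterval) (c : ℝ), (∀ x ∈ Icc a b, f.1 x = c) ∧ (∀ᵐ x, f.1 x ≤ c) ∧
    (m : ℝ) + 2 ≤ ((b : ℝ) - a) * 2 ^ r

lemma exists_res (m : ℕ) (f : Density) : ∃ r, IsRes m f r := by
  obtain ⟨a, b, c, hab, -, h1, h2⟩ := exists_top f
  have hab' : (0 : ℝ) < b - a := sub_pos.2 hab
  obtain ⟨r, hr⟩ := pow_unbounded_of_one_lt (((m : ℝ) + 2) / (b - a)) (one_lt_two)
  refine ⟨r, a, b, c, h1, h2, ?_⟩
  rw [div_lt_iff₀ hab'] at hr
  linarith

/-- the resolution of a density -/
noncomputable def res (m : ℕ) (f : Density) : ℕ := (exists_res m f).choose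

lemma res_spec (m : ℕ) (f : Density) : IsRes m f (res m f) := (exists_res m f).choose_spec

/-- the level of the grid offered to agent `i`: it only depends on the reports of the others -/
noncomputable def lev {m : ℕ} (R0 : ℕ) (d : Fin m → Density) (i : Fin m) : ℕ :=
  max R0 ((Finset.univ.erase i).sup (fun j => res m (d j)))

/-- the assignments of grid cells chosen by the mechanism -/
def Good {m : ℕ} (R0 : ℕ) (d : Fin m → Density) (k : Fin m → ℕ) : Prop :=
  (∀ i, k i < 2 ^ lev R0 d i) ∧
  (∀ i j, i ≠ j → Disjoint (cell (2 ^ lev R0 d i) (k i)) (cell (2 ^ lev R0 d j) (k j))) ∧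
  ∀ i, ∀ l < 2 ^ lev R0 d i,
    value (d i) (cell (2 ^ lev R0 d i) l) ≤ value (d i) (cell (2 ^ lev R0 d i) (k i))

open Classical in
lemma exists_good {m : ℕ} (R0 : ℕ) (d : Fin m → Density) : ∃ k, Good R0 d k := by
  rcases Nat.eq_zero_or_pos m with rfl | hm
  · exact ⟨fun i => i.elim0, fun i => i.elim0, fun i => i.elim0, fun i => i.elim0⟩
  -- the agent of largest resolution
  have : Nonempty (Fin m) := ⟨⟨0, hm⟩⟩
  obtain ⟨a, -, ha⟩ := Finset.exists_max_image (Finset.univ : Finset (Fin m))
    (fun j => res m (d j)) Finset.univ_nonempty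
  have hL : ∀ j, j ≠ a → res m (d j) ≤ lev R0 d a := by
    intro j hj
    refine le_trans ?_ (le_max_right _ _)
    exact Finset.le_sup (f := fun j => res m (d j)) (Finset.mem_erase.2 ⟨hj, Finset.mem_univ j⟩)
  have hM : ∀ j, j ≠ a → lev R0 d a ≤ lev R0 d j := by
    intro j hj
    apply max_le_max (le_refl R0)
    refine Finset.sup_le (fun i _ => (ha i (Finset.mem_univ i)).trans ?_)
    exact Finset.le_sup (f := fun j => res m (d j))
      (Finset.mem_erase.2 ⟨hj.symm, Finset.mem_univ a⟩)
  set N := 2 ^ lev R0 d a with hN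
  have hNpos : 0 < N := by positivity
  -- the best cell for `a`
  obtain ⟨ka, hka, hbest⟩ := Finset.exists_max_image (Finset.range N)
    (fun k => value (d a) (cell N k)) ⟨0, Finset.mem_range.2 hNpos⟩
  -- top intervals of the others
  choose A B c h1 h2 h3 using fun j => res_spec m (d j)
  have h4 : ∀ j, j ≠ a → (m : ℝ) + 2 ≤ ((B j : ℝ) - A j) * (N : ℕ) := by
    intro j hj
    refine (h3 j).trans ?_
    have h5 : (0 : ℝ) ≤ (B j : ℝ) - A j := by
      by_contra hcon
      push Not at hcon
      have h6 := h3 j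
      have h7 : ((B j : ℝ) - A j) * 2 ^ res m (d j) ≤ 0 :=
        mul_nonpos_of_nonpos_of_nonneg hcon.le (by positivity)
      have h8 : (0 : ℝ) ≤ m := Nat.cast_nonneg m
      linarith
    apply mul_le_mul_of_nonneg_left _ h5
    rw [hN]
    push_cast
    exact pow_le_pow_right₀ one_le_two (hL j hj)
  -- distinct cells
  let t : Fin m → Finset ℕ := fun j =>
    if j = a then {ka} else (Finset.range N).filter (fun k => cell N k ⊆ Icc (A j) (B j))
  have hall : ∀ s : Finset (Fin m), s.card ≤ (s.biUnion t).card := by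
    intro s
    by_cases hs : ∃ j ∈ s, j ≠ a
    · obtain ⟨j, hj, hja⟩ := hs
      have h5 : m ≤ (t j).card := by
        simp only [t, if_neg hja]
        exact card_cells (h4 j hja)
      have h6 : s.card ≤ m := by
        have := Finset.card_le_univ s
        rwa [Fintype.card_fin] at this
      exact h6.trans (h5.trans (Finset.card_le_card (Finset.subset_biUnion_of_mem t hj)))
    · push Not at hs
      rcases s.eq_empty_or_nonempty with rfl | ⟨x, hx⟩
      · simp
      · have e : s = {a} := by
          apply Finset.eq_singleton_iff_unique_mem.2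
          exact ⟨hs x hx ▸ hx, hs⟩
        rw [e]
        simp [t]
  obtain ⟨g, hg, hgt⟩ := (Finset.all_card_le_biUnion_card_iff_exists_injective t).1 hall
  have hga : g a = ka := by
    have := hgt a
    simpa [t] using this
  have hgj : ∀ j, j ≠ a → g j < N ∧ cell N (g j) ⊆ Icc (A j) (B j) := by
    intro j hj
    have := hgt j
    simp only [t, if_neg hj, Finset.mem_filter, Finset.mem_range] at this
    exact this
  have hgN : ∀ j, g j < N := by
    intro j
    by_cases hj : j = a
    · rw [hj, hga]; exact Finset.mem_range.1 hka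
    · exact (hgj j hj).1
  -- refine the cells
  have hle : ∀ j, lev R0 d a ≤ lev R0 d j := by
    intro j
    by_cases hj : j = a
    · rw [hj]
    · exact hM j hj
  have hpow : ∀ j, 2 ^ lev R0 d j = N * 2 ^ (lev R0 d j - lev R0 d a) := by
    intro j
    rw [hN, ← pow_add, Nat.add_sub_cancel' (hle j)]
  have hsub : ∀ j, cell (2 ^ lev R0 d j) (g j * 2 ^ (lev R0 d j - lev R0 d a)) ⊆ cell N (g j) := by
    intro j
    rw [hpow j]
    exact cell_sub hNpos (by positivity)
  have hlt : ∀ j, g j * 2 ^ (lev R0 d j - lev R0 d a) < 2 ^ lev R0 d j := by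
    intro j
    rw [hpow j]
    exact Nat.mul_lt_mul_of_pos_right (hgN j) (by positivity)
  refine ⟨fun j => g j * 2 ^ (lev R0 d j - lev R0 d a), hlt, ?_, ?_⟩
  · intro i j hij
    exact (cell_disjoint (N := N) (fun h => hij (hg h))).mono (hsub i) (hsub j)
  · intro i l hl
    by_cases hi : i = a
    · subst hi
      have e : g i * 2 ^ (lev R0 d i - lev R0 d i) = ka := by
        rw [Nat.sub_self, pow_zero, mul_one, hga]
      show value (d i) (cell (2 ^ lev R0 d i) l) ≤
        value (d i) (cell (2 ^ lev R0 d i) (g i * 2 ^ (lev R0 d i - lev R0 d i)))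
      rw [e]
      exact hbest l (Finset.mem_range.2 hl)
    · refine (value_cell_le (h2 i) hl).trans ?_
      rw [value_cell_eq (h1 i) (hlt i) ((hsub i).trans (hgj i hi).2)]

/-! ### the mechanism -/

/-- the cells assigned to the first `m` agents -/
noncomputable def asg {m : ℕ} (R0 : ℕ) (d : Fin m → Density) : Fin m → ℕ :=
  (exists_good R0 d).choose

lemma asg_spec {m : ℕ} (R0 : ℕ) (d : Fin m → Density) : Good R0 d (asg R0 d) :=
  (exists_good R0 d).choose_spec

/-- the cell of agent `i` -/
noncomputable def cl {m : ℕ} (R0 : ℕ) (d : Fin m → Density) (i : Fin m) : Set unitInterval :=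
  cell (2 ^ lev R0 d i) (asg R0 d i)

/-- the mechanism -/
noncomputable def mech (m R0 : ℕ) (d : Fin (m + 1) → Density) : Fin (m + 1) → Set unitInterval :=
  Fin.lastCases (motive := fun _ => Set unitInterval)
    (⋃ i : Fin m, cl R0 (fun i => d i.castSucc) i)ᶜ
    (fun i => cl R0 (fun i => d i.castSucc) i)

lemma mech_castSucc (m R0 : ℕ) (d : Fin (m + 1) → Density) (i : Fin m) :
    mech m R0 d i.castSucc = cl R0 (fun i => d i.castSucc) i := by
  simp [mech]

lemma mech_last (m R0 : ℕ) (d : Fin (m + 1) → Density) :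
    mech m R0 d (Fin.last m) = (⋃ i : Fin m, cl R0 (fun i => d i.castSucc) i)ᶜ := by
  simp [mech]

lemma lev_update {m R0 : ℕ} (d : Fin m → Density) (i : Fin m) (f : Density) :
    lev R0 (Function.update d i f) i = lev R0 d i := by
  unfold lev
  congr 1
  apply Finset.sup_congr rfl
  intro j hj
  rw [Function.update_of_ne (Finset.mem_erase.1 hj).1]

lemma isMechanism (m R0 : ℕ) : IsMechanism (mech m R0) := by
  refine ⟨?_, ?_, ?_⟩
  · intro d i
    refine Fin.lastCases ?_ (fun i => ?_) i
    · rw [mech_last]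
      exact isPiece_compl_iUnion _ (fun i => cell_ordConnected _ _)
    · rw [mech_castSucc]
      exact isPiece_ordConnected (cell_ordConnected _ _)
  · intro d i j
    refine Fin.lastCases ?_ (fun i => ?_) i
    · refine Fin.lastCases ?_ (fun j => ?_) j
      · intro h; exact absurd rfl h
      · intro _
        rw [mech_last, mech_castSucc]
        exact (disjoint_compl_right.mono_left (subset_iUnion _ j)).symm
    · refine Fin.lastCases ?_ (fun j => ?_) j
      · intro _
        rw [mech_last, mech_castSucc]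
        exact disjoint_compl_right.mono_left (subset_iUnion _ i)
      · intro h
        rw [mech_castSucc, mech_castSucc]
        exact (asg_spec R0 _).2.1 i j (fun e => h (by rw [e]))
  · intro d
    rw [eq_univ_iff_forall]
    intro x
    by_cases hx : x ∈ ⋃ i : Fin m, cl R0 (fun i => d i.castSucc) i
    · obtain ⟨i, hi⟩ := mem_iUnion.1 hx
      exact mem_iUnion.2 ⟨i.castSucc, by rw [mech_castSucc]; exact hi⟩
    · exact mem_iUnion.2 ⟨Fin.last m, by rw [mech_last]; exact hx⟩

lemma truthful (m R0 : ℕ) : Truthful (mech m R0) := by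
  intro d i f
  refine Fin.lastCases (motive := fun i => value (d i) (mech m R0 (Function.update d i f) i) ≤
    value (d i) (mech m R0 d i)) ?_ (fun i => ?_) i
  · have e : (fun j : Fin m => Function.update d (Fin.last m) f j.castSucc) =
        fun j => d j.castSucc := by
      funext j
      rw [Function.update_of_ne (Fin.castSucc_lt_last j).ne]
    rw [mech_last, mech_last, e]
  · rw [mech_castSucc, mech_castSucc]
    have e : (fun j : Fin m => Function.update d i.castSucc f j.castSucc) =
        Function.update (fun j => d j.castSucc) i f := by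
      funext j
      by_cases hj : j = i
      · subst hj; simp
      · rw [Function.update_of_ne hj, Function.update_of_ne]
        exact fun h => hj (Fin.castSucc_injective m h)
    rw [e]
    unfold cl
    have h1 := (asg_spec R0 (Function.update (fun j : Fin m => d j.castSucc) i f)).1 i
    rw [lev_update] at h1 ⊢
    exact (asg_spec R0 (fun j : Fin m => d j.castSucc)).2.2 i _ h1

lemma positive (m R0 : ℕ) (d : Fin (m + 1) → Density) (i : Fin (m + 1)) (hi : i ≠ Fin.last m) :
    0 < value (d i) (mech m R0 d i) := by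
  revert hi
  refine Fin.lastCases (motive := fun i => i ≠ Fin.last m → 0 < value (d i) (mech m R0 d i))
    (fun h => absurd rfl h) (fun i _ => ?_) i
  rw [mech_castSucc]
  obtain ⟨k, hk, hpos⟩ := exists_cell_pos (d i.castSucc)
    (N := 2 ^ lev R0 (fun j : Fin m => d j.castSucc) i) (by positivity)
  exact lt_of_lt_of_le hpos ((asg_spec R0 (fun j : Fin m => d j.castSucc)).2.2 i k hk)

lemma volume_last (m R0 : ℕ) (d : Fin (m + 1) → Density) :
    volume.real (mech m R0 d (Fin.last m))ᶜ ≤ m / 2 ^ R0 := by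
  rw [mech_last, compl_compl]
  refine (measureReal_iUnion_fintype_le _).trans ?_
  calc ∑ i : Fin m, volume.real (cl R0 (fun i => d i.castSucc) i)
      ≤ ∑ _i : Fin m, (1 : ℝ) / 2 ^ R0 := by
        apply Finset.sum_le_sum
        intro i _
        unfold cl
        rw [cell_volume ((asg_spec R0 _).1 i)]
        apply one_div_le_one_div_of_le (by positivity)
        push_cast
        exact pow_le_pow_right₀ one_le_two (le_max_left _ _)
    _ = m / 2 ^ R0 := by
        rw [Finset.sum_const, Finset.card_univ, Fintype.card_fin, nsmul_eq_mul]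
        ring

/-- **All but one.** For every `n ≥ 0` and `ε > 0` there is a truthful mechanism for `n + 1` agents,
allocating the whole cake, in which all agents but the last one always get a positive value, and
in which the last agent always gets a set of measure at least `1 - ε`; so the last agent also gets
a positive value whenever its density is positive on a set of measure larger than `ε`. -/
theorem main (n : ℕ) (ε : ℝ) (hε : 0 < ε) :
    ∃ M : (Fin (n + 1) → Density) → Fin (n + 1) → Set unitInterval,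
      IsMechanism M ∧ Truthful M ∧
      (∀ d, ∀ i, i ≠ Fin.last n → 0 < value (d i) (M d i)) ∧
      (∀ d, 1 - ε ≤ volume.real (M d (Fin.last n))) ∧
      (∀ d, ε < volume.real {x | 0 < (d (Fin.last n)).1 x} →
        0 < value (d (Fin.last n)) (M d (Fin.last n))) := by
  obtain ⟨R0, hR0⟩ := pow_unbounded_of_one_lt ((n : ℝ) / ε) (one_lt_two)
  have hsmall : (n : ℝ) / 2 ^ R0 ≤ ε := by
    rw [div_lt_iff₀ hε] at hR0
    rw [div_le_iff₀ (by positivity)]
    linarith
  have hmeas : ∀ d, MeasurableSet (mech n R0 d (Fin.last n)) := fun d =>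
    ((isMechanism n R0).piece d _).measurableSet
  have hvol : ∀ d, volume.real (mech n R0 d (Fin.last n))ᶜ ≤ ε := fun d =>
    (volume_last n R0 d).trans hsmall
  refine ⟨mech n R0, isMechanism n R0, truthful n R0, positive n R0, ?_, ?_⟩
  · intro d
    have h1 := hvol d
    rw [measureReal_compl (hmeas d)] at h1
    simp only [probReal_univ] at h1
    linarith
  · intro d hd
    unfold value
    rw [setIntegral_pos_iff_support_of_nonneg_ae
      (Filter.Eventually.of_forall (fun x => (d (Fin.last n)).2.nonneg x))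
      (integrable (d (Fin.last n))).integrableOn]
    by_contra hcon
    have h0 : volume (Function.support (d (Fin.last n)).1 ∩ mech n R0 d (Fin.last n)) = 0 :=
      nonpos_iff_eq_zero.1 (not_lt.1 hcon)
    have hsub : {x | 0 < (d (Fin.last n)).1 x} ⊆
        (Function.support (d (Fin.last n)).1 ∩ mech n R0 d (Fin.last n)) ∪
          (mech n R0 d (Fin.last n))ᶜ := by
      intro x hx
      by_cases hxM : x ∈ mech n R0 d (Fin.last n)
      · exact Or.inl ⟨(ne_of_gt hx), hxM⟩
      · exact Or.inr hxM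
    have h1 : volume.real {x | 0 < (d (Fin.last n)).1 x} ≤
        volume.real (mech n R0 d (Fin.last n))ᶜ := by
      refine (measureReal_mono hsub).trans ((measureReal_union_le _ _).trans ?_)
      have : volume.real (Function.support (d (Fin.last n)).1 ∩ mech n R0 d (Fin.last n)) = 0 := by
        rw [Measure.real, h0, ENNReal.toReal_zero]
      rw [this, zero_add]
    linarith [hvol d]

end Pool.Agent.Helper83.ABO
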