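import Mathlib

set_option autoImplicit false

namespace Pool.Agent.Helper83.CakeCore

/-- scalar product of two triples of reals -/
def dt (p v : ℝ × ℝ × ℝ) : ℝ := p.1 * v.1 + p.2.1 * v.2.1 + p.2.2 * v.2.2

/-- a valid weight vector with respect to the cell measures `m` -/
def V (m p : ℝ × ℝ × ℝ) : Prop := 0 ≤ p.1 ∧ 0 ≤ p.2.1 ∧ 0 ≤ p.2.2 ∧ 0 < dt p m

/-- the finite-dimensional data extracted from a truthful two agent mechanism with positive values -/
structure Sys (m : ℝ × ℝ × ℝ) (α : ℝ × ℝ × ℝ → ℝ × ℝ × ℝ → ℝ × ℝ × ℝ) : Prop where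
  mA : 0 ≤ m.1
  mB : 0 ≤ m.2.1
  mC : 0 ≤ m.2.2
  nA : ∀ p q, 0 ≤ (α p q).1
  nB : ∀ p q, 0 ≤ (α p q).2.1
  nC : ∀ p q, 0 ≤ (α p q).2.2
  uA : ∀ p q, (α p q).1 ≤ m.1
  uB : ∀ p q, (α p q).2.1 ≤ m.2.1
  uC : ∀ p q, (α p q).2.2 ≤ m.2.2
  T1 : ∀ p p' q, V m p → V m p' → V m q → dt p (α p' q) ≤ dt p (α p q)
  T2 : ∀ p q q', V m p → V m q → V m q' → dt q (α p q) ≤ dt q (α p q')
  Pos1 : ∀ p q, V m p → V m q → 0 < dt p (α p q)
  Pos2 : ∀ p q, V m p → V m q → dt q (α p q) < dt q m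
  H11 : α (1, 1, 1) (1, 1, 1) = (m.1, m.2.1, 0)
  V1 : V m (1, 1, 1)

variable {m : ℝ × ℝ × ℝ} {α : ℝ × ℝ × ℝ → ℝ × ℝ × ℝ → ℝ × ℝ × ℝ}

/-- weight vectors preferring the first two cells -/
def Cc (p : ℝ × ℝ × ℝ) : Prop := 0 ≤ p.2.2 ∧ p.2.2 < p.1 ∧ p.2.2 < p.2.1

/-- weight vectors preferring the last cell -/
def Cd (q : ℝ × ℝ × ℝ) : Prop := 0 ≤ q.1 ∧ 0 ≤ q.2.1 ∧ q.1 < q.2.2 ∧ q.2.1 < q.2.2

namespace Sys

lemma mAB (h : Sys m α) : 0 < m.1 + m.2.1 := by
  have := h.Pos1 _ _ h.V1 h.V1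
  rw [h.H11] at this
  simp [dt] at this
  linarith

lemma mCpos (h : Sys m α) : 0 < m.2.2 := by
  have := h.Pos2 _ _ h.V1 h.V1
  rw [h.H11] at this
  simp [dt] at this
  linarith

lemma Vc (h : Sys m α) {p : ℝ × ℝ × ℝ} (hp : Cc p) : V m p := by
  obtain ⟨h0, h1, h2⟩ := hp
  have h3 := h.mAB
  have h4 := h.mA
  have h5 := h.mB
  have h6 := h.mC
  refine ⟨by linarith, by linarith, h0, ?_⟩
  unfold dt
  have a1 : 0 < p.1 := by linarith
  have a2 : 0 < p.2.1 := by linarith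
  have b1 : 0 ≤ p.1 * m.1 := by positivity
  have b2 : 0 ≤ p.2.1 * m.2.1 := by positivity
  have b3 : 0 ≤ p.2.2 * m.2.2 := by positivity
  rcases h4.lt_or_eq with h7 | h7
  · have : 0 < p.1 * m.1 := by positivity
    linarith
  · have : 0 < m.2.1 := by linarith
    have : 0 < p.2.1 * m.2.1 := by positivity
    linarith

lemma Vd' (h : Sys m α) {q : ℝ × ℝ × ℝ} (h0 : 0 ≤ q.1) (h1 : 0 ≤ q.2.1) (h2 : 0 < q.2.2) : V m q := by
  have h3 := h.mCpos
  have h4 := h.mA
  have h5 := h.mB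
  refine ⟨h0, h1, h2.le, ?_⟩
  unfold dt
  have b1 : 0 ≤ q.1 * m.1 := by positivity
  have b2 : 0 ≤ q.2.1 * m.2.1 := by positivity
  have b3 : 0 < q.2.2 * m.2.2 := by positivity
  linarith

lemma Vd (h : Sys m α) {q : ℝ × ℝ × ℝ} (hq : Cd q) : V m q :=
  h.Vd' hq.1 hq.2.1 (by linarith [hq.1, hq.2.2.1])

lemma M1 (h : Sys m α) {p : ℝ × ℝ × ℝ} (hp : Cc p) :
    α p (1, 1, 1) = (m.1, m.2.1, 0) := by
  have t1 := h.T1 (1, 1, 1) p (1, 1, 1) h.V1 (h.Vc hp) h.V1
  have t2 := h.T1 p (1, 1, 1) (1, 1, 1) (h.Vc hp) h.V1 h.V1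
  rw [h.H11] at t1 t2
  obtain ⟨h0, h1, h2⟩ := hp
  have u1 := h.uA p (1, 1, 1)
  have u2 := h.uB p (1, 1, 1)
  have u3 := h.nC p (1, 1, 1)
  simp only [dt] at t1 t2
  set x := α p (1, 1, 1)
  have e1 : p.2.2 * x.2.2 ≤ p.2.2 * ((m.1 - x.1) + (m.2.1 - x.2.1)) :=
    mul_le_mul_of_nonneg_left (by linarith) h0
  have e2 : (p.1 - p.2.2) * (m.1 - x.1) + (p.2.1 - p.2.2) * (m.2.1 - x.2.1) ≤ 0 := by nlinarith
  have e3 : 0 ≤ (p.1 - p.2.2) * (m.1 - x.1) := mul_nonneg (by linarith) (by linarith)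
  have e4 : 0 ≤ (p.2.1 - p.2.2) * (m.2.1 - x.2.1) := mul_nonneg (by linarith) (by linarith)
  have e5 : (p.1 - p.2.2) * (m.1 - x.1) = 0 := by linarith
  have e6 : (p.2.1 - p.2.2) * (m.2.1 - x.2.1) = 0 := by linarith
  have e7 : m.1 - x.1 = 0 := by
    rcases mul_eq_zero.1 e5 with h | h
    · linarith
    · exact h
  have e8 : m.2.1 - x.2.1 = 0 := by
    rcases mul_eq_zero.1 e6 with h | h
    · linarith
    · exact h
  have e9 : x.2.2 = 0 := by linarith
  ext
  · simp; linarith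
  · simp; linarith
  · simp; linarith

lemma M2 (h : Sys m α) {p q : ℝ × ℝ × ℝ} (hp : Cc p) (hq : Cd q) :
    α p q = (m.1, m.2.1, 0) := by
  have t1 := h.T2 p (1, 1, 1) q (h.Vc hp) h.V1 (h.Vd hq)
  have t2 := h.T2 p q (1, 1, 1) (h.Vc hp) (h.Vd hq) h.V1
  rw [h.M1 hp] at t1 t2
  obtain ⟨h0, h1, h2, h3⟩ := hq
  have u1 := h.uA p q
  have u2 := h.uB p q
  have u3 := h.nC p q
  simp only [dt] at t1 t2
  set x := α p q
  have e1 : q.2.2 * ((m.1 - x.1) + (m.2.1 - x.2.1)) ≤ q.2.2 * x.2.2 :=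
    mul_le_mul_of_nonneg_left (by linarith) (by linarith)
  have e2 : (q.2.2 - q.1) * (m.1 - x.1) + (q.2.2 - q.2.1) * (m.2.1 - x.2.1) ≤ 0 := by nlinarith
  have e3 : 0 ≤ (q.2.2 - q.1) * (m.1 - x.1) := mul_nonneg (by linarith) (by linarith)
  have e4 : 0 ≤ (q.2.2 - q.2.1) * (m.2.1 - x.2.1) := mul_nonneg (by linarith) (by linarith)
  have e5 : (q.2.2 - q.1) * (m.1 - x.1) = 0 := by linarith
  have e6 : (q.2.2 - q.2.1) * (m.2.1 - x.2.1) = 0 := by linarith
  have e7 : m.1 - x.1 = 0 := by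
    rcases mul_eq_zero.1 e5 with h | h
    · linarith
    · exact h
  have e8 : m.2.1 - x.2.1 = 0 := by
    rcases mul_eq_zero.1 e6 with h | h
    · linarith
    · exact h
  have e9 : q.2.2 * x.2.2 ≤ 0 := by nlinarith
  have e10 : x.2.2 = 0 := by
    by_contra hne
    have : 0 < x.2.2 := lt_of_le_of_ne u3 (Ne.symm hne)
    have : 0 < q.2.2 * x.2.2 := mul_pos (by linarith) this
    linarith
  ext
  · simp; linarith
  · simp; linarith
  · simp; linarith


lemma _root_.Pool.Agent.Helper83.CakeCore.dt_add (p q v : ℝ × ℝ × ℝ) :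
    dt (p + q) v = dt p v + dt q v := by
  simp only [dt, Prod.fst_add, Prod.snd_add]; ring

lemma _root_.Pool.Agent.Helper83.CakeCore.dt_smul (t : ℝ) (q v : ℝ × ℝ × ℝ) :
    dt (t • q) v = t * dt q v := by
  simp only [dt, Prod.smul_fst, Prod.smul_snd, smul_eq_mul]; ring

lemma Vray (h : Sys m α) {f q : ℝ × ℝ × ℝ} (hf : Cc f) (hq : Cd q) {t : ℝ} (ht : 0 ≤ t) :
    V m (q + t • f) := by
  obtain ⟨a0, a1, a2⟩ := hf
  obtain ⟨b0, b1, b2, b3⟩ := hq
  apply h.Vd'
  · simp only [Prod.fst_add, Prod.smul_fst, smul_eq_mul]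
    have := mul_nonneg ht (by linarith : 0 ≤ f.1)
    linarith
  · simp only [Prod.fst_add, Prod.snd_add, Prod.smul_fst, Prod.smul_snd, smul_eq_mul]
    have := mul_nonneg ht (by linarith : 0 ≤ f.2.1)
    linarith
  · simp only [Prod.snd_add, Prod.smul_snd, smul_eq_mul]
    have := mul_nonneg ht a0
    linarith

lemma dt_nonneg (h : Sys m α) {p q r : ℝ × ℝ × ℝ} (hp : V m p) : 0 ≤ dt p (α q r) := by
  obtain ⟨a, b, c, -⟩ := hp
  have := mul_nonneg a (h.nA q r)
  have := mul_nonneg b (h.nB q r)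
  have := mul_nonneg c (h.nC q r)
  unfold dt; linarith

/-- comparison of the two menus along a ray -/
lemma I (h : Sys m α) {f f' q : ℝ × ℝ × ℝ} (hf : Cc f) (hf' : Cc f') (hq : Cd q)
    {t : ℝ} (ht : 0 ≤ t) :
    dt (q + t • f) (α f' (q + t • f)) ≤ dt (q + t • f) (α f (q + t • f)) := by
  have vf := h.Vc hf
  have vf' := h.Vc hf'
  -- partition estimate
  have key : ∀ N : ℕ, 0 < N → ∀ i : ℕ, 
      dt (q + ((i : ℝ) * (t / N)) • f) (α f' (q + ((i : ℝ) * (t / N)) • f))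
        - dt (q + ((i : ℝ) * (t / N)) • f) (α f (q + ((i : ℝ) * (t / N)) • f))
      ≤ (t / N) * (dt f (α f q) - dt f (α f (q + ((i : ℝ) * (t / N)) • f))) := by
    intro N hN i
    have hh : 0 ≤ t / N := by positivity
    induction i with
    | zero =>
      simp only [Nat.cast_zero, zero_mul, zero_smul, add_zero, sub_self, mul_zero]
      rw [h.M2 hf hq, h.M2 hf' hq]; simp
    | succ i ih =>
      set r := t / (N : ℝ)
      have vi : V m (q + ((i : ℝ) * r) • f) := h.Vray hf hq (by positivity)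
      have vs : V m (q + (((i + 1 : ℕ) : ℝ) * r) • f) := h.Vray hf hq (by positivity)
      set x := q + ((i : ℝ) * r) • f with hx
      set y := q + (((i + 1 : ℕ) : ℝ) * r) • f with hy
      have exy : y = x + r • f := by
        rw [hx, hy, add_assoc, ← add_smul]; push_cast; congr 2; ring
      have a1 := h.T2 f' y x vf' vs vi
      have a2 := h.T2 f x y vf vi vs
      have a3 := h.T1 f f' x vf vf' vi
      have a4 : dt y (α f' x) = dt x (α f' x) + r * dt f (α f' x) := by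
        rw [exy, dt_add, dt_smul]
      have a5 : dt y (α f y) = dt x (α f y) + r * dt f (α f y) := by
        nth_rewrite 1 [exy]; rw [dt_add, dt_smul]
      have a6 : r * dt f (α f' x) ≤ r * dt f (α f x) := mul_le_mul_of_nonneg_left a3 hh
      nlinarith
  -- limit
  by_contra hcon
  push Not at hcon
  set D := dt (q + t • f) (α f' (q + t • f)) - dt (q + t • f) (α f (q + t • f)) with hD
  have hDpos : 0 < D := by rw [hD]; linarith
  set F := dt f (α f q) with hF
  have hF0 : 0 ≤ F := h.dt_nonneg vf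
  obtain ⟨N, hN⟩ := exists_nat_gt (t * F / D)
  have hN0 : 0 < N := by
    rcases Nat.eq_zero_or_pos N with h0 | h0
    · subst h0
      have : 0 ≤ t * F / D := by positivity
      simp at hN; linarith
    · exact h0
  have k := key N hN0 N
  have hNr : (0 : ℝ) < N := by exact_mod_cast hN0
  have e : (N : ℝ) * (t / N) = t := by field_simp
  rw [e, ← hD] at k
  have k2 : (t / N) * (F - dt f (α f (q + t • f))) ≤ (t / N) * F :=
    mul_le_mul_of_nonneg_left (by linarith [h.dt_nonneg (q := f) (r := q + t • f) vf])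
      (by positivity)
  have k3 : D ≤ t / N * F := le_trans k k2
  rw [div_lt_iff₀ hDpos] at hN
  have : D * N ≤ t * F := by
    calc D * N ≤ (t / N * F) * N := mul_le_mul_of_nonneg_right k3 hNr.le
      _ = t * F := by field_simp
  nlinarith

lemma W (h : Sys m α) {f f' q q' g : ℝ × ℝ × ℝ} (hf : Cc f) (hf' : Cc f') (hq : Cd q)
    (hq' : Cd q') {t t' : ℝ} (ht : 0 ≤ t) (ht' : 0 ≤ t') (e1 : g = q + t • f)
    (e2 : g = q' + t' • f') :
    dt g (α f' g) = dt g (α f g) := by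
  apply le_antisymm
  · have := h.I hf hf' hq ht
    rwa [← e1] at this
  · have := h.I hf' hf hq' ht'
    rwa [← e2] at this

/-- the multiple of `g` on the first two cells -/
def _root_.Pool.Agent.Helper83.CakeCore.mu (M : ℝ) (g : ℝ × ℝ × ℝ) : ℝ × ℝ × ℝ :=
  (M * g.1, M * g.2.1, g.2.2)

lemma mu_Cc {g : ℝ × ℝ × ℝ} (hg : Cc g) {M : ℝ} (hM : 1 < M) : Cc (mu M g) := by
  obtain ⟨a0, a1, a2⟩ := hg
  refine ⟨a0, ?_, ?_⟩
  · simp only [mu]; nlinarith
  · simp only [mu]; nlinarith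

lemma mu_ray {g : ℝ × ℝ × ℝ} {M : ℝ} (hM : 1 < M) :
    g = (0, 0, g.2.2 * (1 - 1 / M)) + (1 / M) • mu M g := by
  have : M ≠ 0 := by linarith
  ext
  · simp only [mu, Prod.fst_add, Prod.smul_fst, smul_eq_mul]; field_simp; ring
  · simp only [mu, Prod.fst_add, Prod.snd_add, Prod.smul_fst, Prod.smul_snd, smul_eq_mul]
    field_simp; ring
  · simp only [mu, Prod.snd_add, Prod.smul_snd, smul_eq_mul]; field_simp; ring

lemma mu_Cd {g : ℝ × ℝ × ℝ} (hc : 0 < g.2.2) {M : ℝ} (hM : 1 < M) :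
    Cd (0, 0, g.2.2 * (1 - 1 / M)) := by
  have : 1 / M < 1 := by rw [div_lt_one (by linarith)]; exact hM
  have : 0 < g.2.2 * (1 - 1 / M) := mul_pos hc (by linarith)
  exact ⟨le_refl _, le_refl _, this, this⟩

lemma C (h : Sys m α) {g : ℝ × ℝ × ℝ} (hg : Cc g) (hc : 0 < g.2.2) {M : ℝ} (hM : 1 < M) :
    dt g (α (mu M g) g) = dt g (α g g) := by
  have vg := h.Vc hg
  apply le_antisymm
  · exact h.T1 g (mu M g) g vg (h.Vc (mu_Cc hg hM)) vg
  · set K := g.1 * m.1 + g.2.1 * m.2.1 with hK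
    have hK0 : 0 ≤ K := by
      have := mul_nonneg vg.1 h.mA
      have := mul_nonneg vg.2.1 h.mB
      linarith
    have key : ∀ M' : ℝ, 1 < M' → dt g (α g g) ≤ dt g (α (mu M g) g) + (M' - 1) * K := by
      intro M' hM'
      have w := h.W (mu_Cc hg hM) (mu_Cc hg hM') (mu_Cd hc hM) (mu_Cd hc hM')
        (by positivity) (by positivity) (mu_ray hM) (mu_ray hM')
      have t := h.T1 (mu M' g) g g (h.Vc (mu_Cc hg hM')) vg vg
      rw [← w]
      have e : ∀ v, dt (mu M' g) v = dt g v + (M' - 1) * (g.1 * v.1 + g.2.1 * v.2.1) := by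
        intro v; simp only [dt, mu]; ring
      rw [e, e] at t
      have b1 : 0 ≤ (M' - 1) * (g.1 * (α g g).1 + g.2.1 * (α g g).2.1) := by
        apply mul_nonneg (by linarith)
        have := mul_nonneg vg.1 (h.nA g g)
        have := mul_nonneg vg.2.1 (h.nB g g)
        linarith
      have b2 : (M' - 1) * (g.1 * (α (mu M' g) g).1 + g.2.1 * (α (mu M' g) g).2.1)
          ≤ (M' - 1) * K := by
        apply mul_le_mul_of_nonneg_left _ (by linarith)
        have := mul_le_mul_of_nonneg_left (h.uA (mu M' g) g) vg.1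
        have := mul_le_mul_of_nonneg_left (h.uB (mu M' g) g) vg.2.1
        linarith
      linarith
    by_contra hcon
    push Not at hcon
    set d := dt g (α g g) - dt g (α (mu M g) g) with hd
    have hd0 : 0 < d := by rw [hd]; linarith
    have := key (1 + d / (2 * (K + 1))) (by
      have : 0 < d / (2 * (K + 1)) := by positivity
      linarith)
    have e1 : (1 + d / (2 * (K + 1)) - 1) * K ≤ d / 2 := by
      have : (1 + d / (2 * (K + 1)) - 1) * K = d / 2 * (K / (K + 1)) := by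
        field_simp; ring
      rw [this]
      have : K / (K + 1) ≤ 1 := by rw [div_le_one (by linarith)]; linarith
      nlinarith
    linarith

lemma Local (h : Sys m α) {f g q : ℝ × ℝ × ℝ} (hf : Cc f) (hg : Cc g) (hc : 0 < g.2.2)
    (hq : Cd q) {t : ℝ} (ht : 0 ≤ t) (e : g = q + t • f) :
    dt g (α f g) = dt g (α g g) := by
  rw [← h.C hg hc (M := 2) (by norm_num)]
  have hM : (1 : ℝ) < 2 := by norm_num
  exact (h.W hf (mu_Cc hg hM) hq (mu_Cd hc hM) ht (by positivity) e (mu_ray hM)).symm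

end Sys

/-- **Core lemma**: there is no such system. -/
theorem core {ε z : ℝ} (h : Sys m α) (e0 : 0 < ε) (e1 : ε < 1)
    (hε : dt (1, 1, 0) (α (1, 1, 0) (1, 1, 0)) + ε * m.2.2 < m.1 + m.2.1)
    (hz : α (2, 2, ε) (1, 1, ε) = (0, m.2.1, z)) : False := by
  have hAB := h.mAB
  have hC := h.mCpos
  have hA0 := h.mA
  have hB0 := h.mB
  have c1 : Cc (1, 1, ε) := ⟨e0.le, e1, e1⟩
  have c0 : Cc (1, 1, 0) := ⟨le_refl _, by norm_num, by norm_num⟩
  have c2 : Cc (2, 2, ε) := ⟨e0.le, by simp; linarith, by simp; linarith⟩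
  have hmu : mu 2 (1, 1, ε) = (2, 2, ε) := by simp [mu]
  have z0 : 0 ≤ z := by have := h.nC (2, 2, ε) (1, 1, ε); rw [hz] at this; exact this
  have cf : dt (1, 1, ε) (α (1, 1, ε) (1, 1, ε)) = m.2.1 + ε * z := by
    rw [← h.C c1 e0 (M := 2) (by norm_num), hmu, hz]; simp [dt]
  -- the first cell is not null
  have hA : 0 < m.1 := by
    have t2 := h.T2 (1, 1, ε) (1, 1, ε) (1, 1, 0) (h.Vc c1) (h.Vc c1) (h.Vc c0)
    have t1 := h.T1 (1, 1, 0) (1, 1, ε) (1, 1, 0) (h.Vc c0) (h.Vc c1) (h.Vc c0)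
    have u := h.uC (1, 1, ε) (1, 1, 0)
    have : dt (1, 1, ε) (α (1, 1, ε) (1, 1, 0))
        = dt (1, 1, 0) (α (1, 1, ε) (1, 1, 0)) + ε * (α (1, 1, ε) (1, 1, 0)).2.2 := by
      simp only [dt]; ring
    have u' := mul_le_mul_of_nonneg_left u e0.le
    have : 0 ≤ ε * z := by positivity
    linarith
  have V0 : V m (1, 0, 0) := ⟨by norm_num, by norm_num, by norm_num, by simp [dt]; exact hA⟩
  have P0 := h.Pos1 _ _ V0 V0
  set K := m.2.1 + ε * z with hK
  have hK0 : 0 ≤ K := by positivity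
  -- main estimate
  have main : ∀ s : ℝ, 0 < s → s < 1 → dt (1, 0, 0) (α (1, 0, 0) (1, 0, 0)) ≤ (1 - s) * K := by
    intro s s0 s1
    set θ := ε * (1 - s) / 8 with hθ
    have s1' : 0 < 1 - s := by linarith
    have θ0 : 0 < θ := by positivity
    obtain ⟨N, hN⟩ := exists_nat_gt (max (2 / (θ * (1 - s))) (8 / (1 - s)))
    have hNr : (0 : ℝ) < N := lt_of_lt_of_le (by positivity) ((le_max_right _ _).trans hN.le)
    have hN1 := (le_max_left _ _).trans_lt hN
    have hN2 := (le_max_right _ _).trans_lt hN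
    set δ := s / N with hδ
    have δ0 : 0 < δ := by positivity
    have hNδ : N * δ = s := by rw [hδ]; field_simp
    have δ1 : 2 * δ ≤ θ * (1 - s) := by
      rw [div_lt_iff₀ (by positivity)] at hN1
      rw [hδ, mul_div_assoc', div_le_iff₀ hNr]
      nlinarith
    have δ2 : 8 * δ ≤ 1 - s := by
      rw [div_lt_iff₀ (by positivity)] at hN2
      rw [hδ, mul_div_assoc', div_le_iff₀ hNr]
      nlinarith
    -- the path
    let g : ℕ → ℝ × ℝ × ℝ := fun k => (1, 1 - k * δ, (1 - k * δ) * ε)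
    have hk : ∀ k : ℕ, k ≤ N → 1 - s ≤ 1 - k * δ ∧ 1 - k * δ ≤ 1 := by
      intro k hkN
      have : (k : ℝ) * δ ≤ N * δ := mul_le_mul_of_nonneg_right (by exact_mod_cast hkN) δ0.le
      have : 0 ≤ (k : ℝ) * δ := by positivity
      constructor <;> linarith
    have cg : ∀ k : ℕ, k ≤ N → Cc (g k) := by
      intro k hkN
      obtain ⟨a, b⟩ := hk k hkN
      refine ⟨?_, ?_, ?_⟩
      · simp only [g]; apply mul_nonneg <;> linarith
      · simp only [g]; nlinarith
      · simp only [g]; nlinarith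
    have gc : ∀ k : ℕ, k ≤ N → 0 < (g k).2.2 := by
      intro k hkN
      obtain ⟨a, b⟩ := hk k hkN
      simp only [g]; apply mul_pos <;> linarith
    have hM : (1 : ℝ) < 2 := by norm_num
    -- local identity
    have loc : ∀ k i : ℕ, i ≤ 2 → k + i ≤ N → 
        dt (g (k + i)) (α (mu 2 (g k)) (g (k + i))) = dt (g (k + i)) (α (g (k + i)) (g (k + i))) := by
      intro k i hi hki
      have hk' : k ≤ N := by omega
      obtain ⟨a, b⟩ := hk k hk'
      have hi' : (i : ℝ) ≤ 2 := by exact_mod_cast hi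
      have hi0 : (0 : ℝ) ≤ i := by positivity
      have iδ : (i : ℝ) * δ ≤ 2 * δ := mul_le_mul_of_nonneg_right hi' δ0.le
      have iδ0 : 0 ≤ (i : ℝ) * δ := by positivity
      have hθ1 : θ ≤ 1 := by
        have : ε * (1 - s) ≤ 1 * 1 := mul_le_mul e1.le (by linarith) s1'.le (by norm_num)
        rw [hθ]; linarith
      refine h.Local (q := g (k + i) - ((1 - θ) / 2) • mu 2 (g k)) (t := (1 - θ) / 2)
        (Sys.mu_Cc (cg k hk') hM) (cg _ hki) (gc _ hki) ?_ (by linarith) (by abel)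
      have q1 : (g (k + i) - ((1 - θ) / 2) • mu 2 (g k)).1 = θ := by
        simp only [g, mu, Prod.fst_sub, Prod.smul_fst, smul_eq_mul]; ring
      have q2 : (g (k + i) - ((1 - θ) / 2) • mu 2 (g k)).2.1 = θ * (1 - k * δ) - i * δ := by
        simp only [g, mu, Prod.fst_sub, Prod.snd_sub, Prod.smul_fst, Prod.smul_snd, smul_eq_mul]
        push_cast; ring
      have q3 : (g (k + i) - ((1 - θ) / 2) • mu 2 (g k)).2.2
          = ε * ((1 - k * δ) * (1 + θ) / 2 - i * δ) := by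
        simp only [g, mu, Prod.snd_sub, Prod.smul_snd, smul_eq_mul]
        push_cast; ring
      have bb : θ * (1 - s) ≤ θ * (1 - k * δ) := mul_le_mul_of_nonneg_left a θ0.le
      have b3 : θ * (1 - k * δ) ≤ θ := by
        have := mul_le_mul_of_nonneg_left b θ0.le
        linarith
      have c3 : θ < ε * ((1 - k * δ) * (1 + θ) / 2 - i * δ) := by
        have hp1 : 0 ≤ (1 - k * δ) * θ := mul_nonneg (by linarith) θ0.le
        have : (1 - s) / 4 ≤ (1 - k * δ) * (1 + θ) / 2 - i * δ := by linarith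
        have := mul_le_mul_of_nonneg_left this e0.le
        have h5 : 0 < ε * (1 - s) := by positivity
        have h6 : θ < ε * ((1 - s) / 4) := by rw [hθ]; linarith
        linarith
      refine ⟨?_, ?_, ?_, ?_⟩
      · rw [q1]; exact θ0.le
      · rw [q2]; linarith
      · rw [q1, q3]; exact c3
      · rw [q2, q3]; linarith
    -- the discrepancy along the path
    set Z : ℝ × ℝ × ℝ := (0, m.2.1, z) with hZ
    let e : ℕ → ℝ := fun k => dt (g k) (α (g k) (g k)) - dt (g k) Z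
    have g0 : g 0 = (1, 1, ε) := by simp [g]
    have ee0 : e 0 = 0 := by
      simp only [e, g0, cf]; simp [dt, hZ, hK]
    have hN1' : 1 ≤ N := by
      have : (0 : ℝ) < N := hNr
      exact_mod_cast this
    have ee1 : e 1 ≤ 0 := by
      have l := loc 0 1 (by norm_num) (by omega)
      have hz' : α (mu 2 (g 0)) (g 0) = Z := by rw [g0, hmu, hz]
      have t := h.T2 (mu 2 (g 0)) (g 1) (g 0) (h.Vc (Sys.mu_Cc (cg 0 (by omega)) hM))
        (h.Vc (cg 1 hN1')) (h.Vc (cg 0 (by omega)))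
      rw [hz'] at t
      simp only [e]
      rw [zero_add] at l
      linarith
    have conc : ∀ k : ℕ, k + 2 ≤ N → e (k + 2) + e k ≤ 2 * e (k + 1) := by
      intro k hk2
      have l0 := loc k 0 (by norm_num) (by omega)
      have l1 := loc k 1 (by norm_num) (by omega)
      have l2 := loc k 2 (by norm_num) (by omega)
      have vk := h.Vc (Sys.mu_Cc (cg k (by omega)) hM)
      have t0 := h.T2 (mu 2 (g k)) (g k) (g (k + 1)) vk (h.Vc (cg k (by omega)))
        (h.Vc (cg (k + 1) (by omega)))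
      have t2 := h.T2 (mu 2 (g k)) (g (k + 2)) (g (k + 1)) vk (h.Vc (cg (k + 2) hk2))
        (h.Vc (cg (k + 1) (by omega)))
      have lin : ∀ v, dt (g k) v + dt (g (k + 2)) v = 2 * dt (g (k + 1)) v := by
        intro v; simp only [dt, g]; push_cast; ring
      have lz := lin Z
      have la := lin (α (mu 2 (g k)) (g (k + 1)))
      rw [add_zero] at l0
      simp only [e]
      linarith
    have step : ∀ k : ℕ, k + 1 ≤ N → e (k + 1) ≤ e k := by
      intro k
      induction k with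
      | zero => intro _; rw [ee0]; exact ee1
      | succ k ih =>
        intro hk2
        have := ih (by omega)
        have := conc k (by omega)
        linarith
    have nonpos : ∀ k : ℕ, k ≤ N → e k ≤ 0 := by
      intro k
      induction k with
      | zero => intro _; rw [ee0]
      | succ k ih =>
        intro hk2
        have := ih (by omega)
        have := step k hk2
        linarith
    have fin := nonpos N le_rfl
    have dz : dt (g N) Z = (1 - s) * K := by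
      simp only [dt, g, hZ, hK, hNδ]; ring
    have vN := h.Vc (cg N le_rfl)
    have t2 := h.T2 (1, 0, 0) (1, 0, 0) (g N) V0 V0 vN
    have t1 := h.T1 (g N) (1, 0, 0) (g N) vN V0 vN
    have mono : dt (1, 0, 0) (α (1, 0, 0) (g N)) ≤ dt (g N) (α (1, 0, 0) (g N)) := by
      obtain ⟨a, b⟩ := hk N le_rfl
      have h2 := mul_nonneg (by linarith : (0 : ℝ) ≤ 1 - N * δ) (h.nB (1, 0, 0) (g N))
      have h3 := mul_nonneg (gc N le_rfl).le (h.nC (1, 0, 0) (g N))
      simp only [dt, g] at h2 h3 ⊢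
      linarith
    simp only [e] at fin
    linarith
  -- let s tend to 1
  set p := dt (1, 0, 0) (α (1, 0, 0) (1, 0, 0)) with hp
  have hs := main (1 - min (1 / 2) (p / (2 * (K + 1)))) (by
      have := min_le_left (1 / 2 : ℝ) (p / (2 * (K + 1)))
      linarith) (by
      have : 0 < min (1 / 2 : ℝ) (p / (2 * (K + 1))) := lt_min (by norm_num) (by positivity)
      linarith)
  have : (1 - (1 - min (1 / 2) (p / (2 * (K + 1))))) * K ≤ p / (2 * (K + 1)) * K := by
    have := min_le_right (1 / 2 : ℝ) (p / (2 * (K + 1)))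
    apply mul_le_mul_of_nonneg_right _ hK0
    linarith
  have e2 : p / (2 * (K + 1)) * K ≤ p / 2 := by
    have : p / (2 * (K + 1)) * K = p / 2 * (K / (K + 1)) := by field_simp
    rw [this]
    have : K / (K + 1) ≤ 1 := by rw [div_le_one (by linarith)]; linarith
    nlinarith
  linarith

end Pool.Agent.Helper83.CakeCore
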