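import Pool.Agent.Helper83.CakeDefs

/-!
# Locally finite and non-bossy cake cutting mechanisms
-/

set_option autoImplicit false

open MeasureTheory

namespace Pool.Agent.Helper83.Cake

/-- Locally finite mechanism: every profile `d` has a neighbourhood (in the sup norm of the
densities) such that there is a finite set of allocations with the property that at every profile
`d'` of the neighbourhood the mechanism takes, up to null sets, one of them. -/
def LocallyFiniteMech {n : ℕ} (M : (Fin n → Density) → Fin n → Set unitInterval) : Prop :=
  ∀ d : Fin n → Density, ∃ ε > 0, ∃ 𝒜 : Set (Fin n → Set unitInterval), 𝒜.Finite ∧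
    ∀ d' : Fin n → Density, (∀ i x, |(d' i).1 x - (d i).1 x| < ε) →
      ∃ A ∈ 𝒜, ∀ i, M d' i =ᵐ[volume] A i

/-- Non-bossy mechanism: an agent whose change of report does not change its own piece (up to a
null set) does not change the piece of any agent (up to null sets). -/
def NonBossy {n : ℕ} (M : (Fin n → Density) → Fin n → Set unitInterval) : Prop :=
  ∀ (d : Fin n → Density) (i : Fin n) (f : Density),
    M (Function.update d i f) i =ᵐ[volume] M d i →
      ∀ j, M (Function.update d i f) j =ᵐ[volume] M d j

end Pool.Agent.Helper83.Cake
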