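import Mathlib
import Pool.Agent.Helper83.CakeDefs
import Pool.Agent.Helper83.CakeCore

set_option autoImplicit false

open MeasureTheory Set

/-! Proof of MP_b3d40b_lc.TwoAgents. -/

namespace Pool.Agent.Helper83.TwoA

open Pool.Agent.Helper83.Cake Pool.Agent.Helper83.CakeCore

/-- function with value `p.1` on `X \ Z`, `p.2.1` on `X ∩ Z`, `p.2.2` off `X` -/
noncomputable def cellFun (X Z : Set unitInterval) (p : ℝ × ℝ × ℝ) : unitInterval → ℝ := by
  classical
  exact fun x => if x ∈ X then (if x ∈ Z then p.2.1 else p.1) else p.2.2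

/-- cell measures of a set `W` -/
noncomputable def cm (X Z W : Set unitInterval) : ℝ × ℝ × ℝ :=
  (volume.real ((X \ Z) ∩ W), volume.real ((X ∩ Z) ∩ W), volume.real (Xᶜ ∩ W))

lemma cellFun_eq (X Z : Set unitInterval) (p : ℝ × ℝ × ℝ) :
    cellFun X Z p = fun x => (X \ Z).indicator (fun _ => p.1) x
      + (X ∩ Z).indicator (fun _ => p.2.1) x + Xᶜ.indicator (fun _ => p.2.2) x := by
  classical
  ext x
  unfold cellFun
  by_cases h1 : x ∈ X <;> by_cases h2 : x ∈ Z <;> simp [h1, h2]

lemma integral_cellFun {X Z : Set unitInterval} (hX : MeasurableSet X) (hZ : MeasurableSet Z)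
    (W : Set unitInterval) (p : ℝ × ℝ × ℝ) :
    ∫ x in W, cellFun X Z p x = dt p (cm X Z W) := by
  have i1 : ∀ (A : Set unitInterval) (c : ℝ), MeasurableSet A →
      Integrable (A.indicator (fun _ => c)) (volume.restrict W) := by
    intro A c hA
    exact (integrable_const c).indicator hA
  rw [cellFun_eq]
  rw [integral_add, integral_add, integral_indicator_const _ (hX.diff hZ),
    integral_indicator_const _ (hX.inter hZ), integral_indicator_const _ hX.compl]
  · simp only [dt, cm, smul_eq_mul]
    rw [measureReal_restrict_apply (hX.diff hZ), measureReal_restrict_apply (hX.inter hZ),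
      measureReal_restrict_apply hX.compl]
    ring
  · exact i1 _ _ (hX.diff hZ)
  · exact i1 _ _ (hX.inter hZ)
  · exact (i1 _ _ (hX.diff hZ)).add (i1 _ _ (hX.inter hZ))
  · exact i1 _ _ hX.compl

/-- cell functions with pieces as cells are densities -/
lemma isDensity_cellFun {X Z : Set unitInterval} (hX : IsPiece X) (hX' : IsPiece Xᶜ)
    (hZ : IsPiece Z) (hZ' : IsPiece Zᶜ) {p : ℝ × ℝ × ℝ} (hp : V (cm X Z univ) p) :
    IsDensity (cellFun X Z p) := by
  classical
  have mX := hX.measurableSet
  have mZ := hZ.measurableSet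
  refine ⟨?_, ?_, ?_⟩
  · intro x
    obtain ⟨a, b, c, -⟩ := hp
    unfold cellFun
    split_ifs <;> assumption
  · obtain ⟨S, Sf, So, SX⟩ := hX
    obtain ⟨S', Sf', So', SX'⟩ := hX'
    obtain ⟨T, Tf, To, TZ⟩ := hZ
    obtain ⟨T', Tf', To', TZ'⟩ := hZ'
    refine ⟨image2 (· ∩ ·) S T ∪ image2 (· ∩ ·) S T' ∪ S', ?_, ?_, ?_, ?_⟩
    · exact ((Sf.image2 _ Tf).union (Sf.image2 _ Tf')).union Sf'
    · rintro J ((⟨a, ha, b, hb, rfl⟩ | ⟨a, ha, b, hb, rfl⟩) | hJ)
      · exact (So a ha).inter (To b hb)
      · exact (So a ha).inter (To' b hb)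
      · exact So' J hJ
    · rw [eq_univ_iff_forall]
      intro x
      by_cases h1 : x ∈ X
      · have h1' : x ∈ ⋃₀ S := by rw [← SX]; exact h1
        obtain ⟨a, ha, hxa⟩ := h1'
        by_cases h2 : x ∈ Z
        · have h2' : x ∈ ⋃₀ T := by rw [← TZ]; exact h2
          obtain ⟨b, hb, hxb⟩ := h2'
          exact ⟨a ∩ b, Or.inl (Or.inl ⟨a, ha, b, hb, rfl⟩), hxa, hxb⟩
        · have h2' : x ∈ ⋃₀ T' := by rw [← TZ']; exact h2
          obtain ⟨b, hb, hxb⟩ := h2'
          exact ⟨a ∩ b, Or.inl (Or.inr ⟨a, ha, b, hb, rfl⟩), hxa, hxb⟩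
      · have h1' : x ∈ ⋃₀ S' := by rw [← SX']; exact h1
        obtain ⟨a, ha, hxa⟩ := h1'
        exact ⟨a, Or.inr ha, hxa⟩
    · rintro J ((⟨a, ha, b, hb, rfl⟩ | ⟨a, ha, b, hb, rfl⟩) | hJ)
      · refine ⟨p.2.1, ?_⟩
        rintro x ⟨hxa, hxb⟩
        have h1 : x ∈ X := by rw [SX]; exact ⟨a, ha, hxa⟩
        have h2 : x ∈ Z := by rw [TZ]; exact ⟨b, hb, hxb⟩
        simp [cellFun, h1, h2]
      · refine ⟨p.1, ?_⟩
        rintro x ⟨hxa, hxb⟩
        have h1 : x ∈ X := by rw [SX]; exact ⟨a, ha, hxa⟩
        have h2 : x ∈ Zᶜ := by rw [TZ']; exact ⟨b, hb, hxb⟩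
        have h2' : x ∉ Z := h2
        simp [cellFun, h1, h2']
      · refine ⟨p.2.2, ?_⟩
        intro x hx
        have h1 : x ∈ Xᶜ := by rw [SX']; exact ⟨J, hJ, hx⟩
        have h1' : x ∉ X := h1
        simp [cellFun, h1']
  · have := integral_cellFun mX mZ univ p
    rw [setIntegral_univ] at this
    rw [this]
    exact hp.2.2.2

/-- In the case of two agents, every truthful mechanism has a profile on which some agent
receives a piece of value zero. -/
theorem main (M : (Fin 2 → Density) → Fin 2 → Set unitInterval)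
    (hM : IsMechanism M) (hT : Truthful M) : ∃ d i, value (d i) (M d i) = 0 := by
  classical
  by_contra hcon
  push Not at hcon
  have pos : ∀ d i, 0 < value (d i) (M d i) := fun d i =>
    lt_of_le_of_ne (value_nonneg _ _) (Ne.symm (hcon d i))
  -- the second piece is the complement of the first
  have hc : ∀ d, M d 1 = (M d 0)ᶜ := by
    intro d
    ext x
    have hd := hM.disj d 0 1 (by decide)
    have hu := hM.cover d
    have hx : x ∈ ⋃ i, M d i := by rw [hu]; trivial
    rw [mem_iUnion] at hx
    constructor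
    · intro h1 h0
      exact (disjoint_left.1 hd) h0 h1
    · intro h0
      obtain ⟨i, hi⟩ := hx
      fin_cases i
      · exact absurd hi h0
      · exact hi
  -- the constant density
  have hone : IsDensity (fun _ => (1 : ℝ)) := by
    refine ⟨fun _ => zero_le_one, ⟨{univ}, finite_singleton _, ?_, by simp, ?_⟩, by simp⟩
    · rintro J rfl; exact ordConnected_univ
    · rintro J rfl; exact ⟨1, fun _ _ => rfl⟩
  let one : Density := ⟨fun _ => 1, hone⟩
  -- total conversion of functions into densities
  let toD : (unitInterval → ℝ) → Density := fun f => if h : IsDensity f then ⟨f, h⟩ else one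
  have toD_val : ∀ f, IsDensity f → (toD f).1 = f := by
    intro f hf; simp only [toD]; rw [dif_pos hf]
  -- the piece of the first agent
  let a : (unitInterval → ℝ) → (unitInterval → ℝ) → Set unitInterval := fun f g =>
    M ![toD f, toD g] 0
  have pa : ∀ f g, IsPiece (a f g) := fun f g => hM.piece _ _
  have pa' : ∀ f g, IsPiece (a f g)ᶜ := fun f g => by
    have := hM.piece ![toD f, toD g] 1
    rwa [hc] at this
  set X := a (fun _ => 1) (fun _ => 1) with hX
  have pX : IsPiece X := pa _ _
  have pX' : IsPiece Xᶜ := pa' _ _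
  have mX := pX.measurableSet
  -- general consequences for densities that are cell functions
  have gT1 : ∀ f f' g : unitInterval → ℝ, IsDensity f → IsDensity f' → IsDensity g → 
      ∫ x in a f' g, f x ≤ ∫ x in a f g, f x := by
    intro f f' g hf hf' hg
    have := hT ![toD f, toD g] 0 (toD f')
    have e : Function.update ![toD f, toD g] 0 (toD f') = ![toD f', toD g] := by
      ext i; fin_cases i <;> simp
    rw [e] at this
    simp only [value, Matrix.cons_val_zero] at this
    rwa [toD_val f hf] at this
  have gT2 : ∀ f g g' : unitInterval → ℝ, IsDensity f → IsDensity g → IsDensity g' → 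
      ∫ x in (a f g')ᶜ, g x ≤ ∫ x in (a f g)ᶜ, g x := by
    intro f g g' hf hg hg'
    have := hT ![toD f, toD g] 1 (toD g')
    have e : Function.update ![toD f, toD g] 1 (toD g') = ![toD f, toD g'] := by
      ext i; fin_cases i <;> simp
    rw [e, hc, hc] at this
    simp only [value, Matrix.cons_val_one, Matrix.cons_val_fin_one] at this
    rwa [toD_val g hg] at this
  have gP1 : ∀ f g : unitInterval → ℝ, IsDensity f → IsDensity g → 0 < ∫ x in a f g, f x := by
    intro f g hf hg
    have := pos ![toD f, toD g] 0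
    simp only [value, Matrix.cons_val_zero] at this
    rwa [toD_val f hf] at this
  have gP2 : ∀ f g : unitInterval → ℝ, IsDensity f → IsDensity g →
      0 < ∫ x in (a f g)ᶜ, g x := by
    intro f g hf hg
    have := pos ![toD f, toD g] 1
    rw [hc] at this
    simp only [value, Matrix.cons_val_one, Matrix.cons_val_fin_one] at this
    rwa [toD_val g hg] at this
  -- measure of a set in cells
  have cm_sub : ∀ Z W : Set unitInterval, MeasurableSet Z → MeasurableSet W → 
      ∀ p, dt p (cm X Z Wᶜ) = dt p (cm X Z univ) - dt p (cm X Z W) := by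
    intro Z W mZ mW p
    have e : ∀ A : Set unitInterval, volume.real (A ∩ Wᶜ) = volume.real (A ∩ univ)
        - volume.real (A ∩ W) := by
      intro A
      have := measureReal_inter_add_sdiff (μ := (volume : Measure unitInterval)) (s := A) mW
      rw [inter_univ, ← this]
      simp only [sdiff_eq]; ring
    simp only [dt, cm, e]; ring
  -- densities depending on `X` only
  have cf_same : ∀ (Z : Set unitInterval) (s c : ℝ), cellFun X Z (s, s, c) = cellFun X ∅ (s, s, c) := by
    intro Z s c
    ext x
    unfold cellFun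
    by_cases h1 : x ∈ X <;> simp [h1]
  have cf_one : ∀ Z : Set unitInterval, cellFun X Z (1, 1, 1) = fun _ => 1 := by
    intro Z
    ext x
    unfold cellFun
    by_cases h1 : x ∈ X <;> simp [h1]
  -- choice of ε
  have hXpos : 0 < volume.real X := by
    have := gP1 _ _ hone hone
    rw [← hX] at this
    simpa using this
  have pe : IsPiece (∅ : Set unitInterval) := ⟨∅, finite_empty, by simp, by simp⟩
  have pe' : IsPiece (∅ : Set unitInterval)ᶜ := by
    refine ⟨{univ}, finite_singleton _, ?_, by simp⟩
    rintro J rfl; exact ordConnected_univ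
  have h10 : IsDensity (cellFun X ∅ (1, 1, 0)) := by
    apply isDensity_cellFun pX pX' pe pe'
    refine ⟨by norm_num, by norm_num, by norm_num, ?_⟩
    simp [dt, cm]; exact hXpos
  set Y := a (cellFun X ∅ (1, 1, 0)) (cellFun X ∅ (1, 1, 0)) with hY
  have mY : MeasurableSet Y := (pa _ _).measurableSet
  have hYpos : 0 < volume.real (X ∩ Yᶜ) := by
    have := gP2 _ _ h10 h10
    rw [← hY, integral_cellFun mX MeasurableSet.empty] at this
    simpa [dt, cm] using this
  set ε := volume.real (X ∩ Yᶜ) / 2 with hε
  have e0 : 0 < ε := by positivity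
  have hle1 : ∀ A : Set unitInterval, volume.real A ≤ 1 := fun A => measureReal_le_one
  have e1 : ε < 1 := by have := hle1 (X ∩ Yᶜ); linarith
  set Z := a (cellFun X ∅ (2, 2, ε)) (cellFun X ∅ (1, 1, ε)) with hZ
  have pZ : IsPiece Z := pa _ _
  have pZ' : IsPiece Zᶜ := pa' _ _
  have mZ := pZ.measurableSet
  -- the system
  let α : ℝ × ℝ × ℝ → ℝ × ℝ × ℝ → ℝ × ℝ × ℝ := fun p q =>
    cm X Z (a (cellFun X Z p) (cellFun X Z q))
  have den : ∀ p, V (cm X Z univ) p → IsDensity (cellFun X Z p) := fun p hp =>
    isDensity_cellFun pX pX' pZ pZ' hp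
  have ma : ∀ f g, MeasurableSet (a f g) := fun f g => (pa f g).measurableSet
  have hV1 : V (cm X Z univ) (1, 1, 1) := by
    refine ⟨by norm_num, by norm_num, by norm_num, ?_⟩
    rw [← integral_cellFun mX mZ, cf_one]; simp
  have sys : Sys (cm X Z univ) α := by
    refine
      { mA := measureReal_nonneg, mB := measureReal_nonneg, mC := measureReal_nonneg
        nA := fun _ _ => measureReal_nonneg
        nB := fun _ _ => measureReal_nonneg
        nC := fun _ _ => measureReal_nonneg
        uA := fun _ _ => measureReal_mono (inter_subset_inter_right _ (subset_univ _))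
        uB := fun _ _ => measureReal_mono (inter_subset_inter_right _ (subset_univ _))
        uC := fun _ _ => measureReal_mono (inter_subset_inter_right _ (subset_univ _))
        T1 := ?_, T2 := ?_, Pos1 := ?_, Pos2 := ?_, H11 := ?_, V1 := hV1 }
    · intro p p' q hp hp' hq
      have := gT1 _ _ _ (den p hp) (den p' hp') (den q hq)
      rwa [integral_cellFun mX mZ, integral_cellFun mX mZ] at this
    · intro p q q' hp hq hq'
      have := gT2 _ _ _ (den p hp) (den q hq) (den q' hq')
      rw [integral_cellFun mX mZ, integral_cellFun mX mZ, cm_sub Z _ mZ (ma _ _),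
        cm_sub Z _ mZ (ma _ _)] at this
      simp only [α]
      linarith
    · intro p q hp hq
      have := gP1 _ _ (den p hp) (den q hq)
      rwa [integral_cellFun mX mZ] at this
    · intro p q hp hq
      have := gP2 _ _ (den p hp) (den q hq)
      rw [integral_cellFun mX mZ, cm_sub Z _ mZ (ma _ _)] at this
      simp only [α]
      linarith
    · simp only [α, cf_one]
      rw [← hX]
      have h1 : (X \ Z) ∩ X = X \ Z := inter_eq_left.2 sdiff_subset
      have h2 : (X ∩ Z) ∩ X = X ∩ Z := inter_eq_left.2 inter_subset_left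
      have h3 : Xᶜ ∩ X = ∅ := compl_inter_self X
      simp only [cm, h1, h2, h3, inter_univ, measureReal_empty]
  refine core (z := volume.real (Xᶜ ∩ Z)) sys e0 e1 ?_ ?_
  · have h1 : dt (1, 1, 0) (α (1, 1, 0) (1, 1, 0)) = volume.real (X ∩ Y) := by
      simp only [α, cf_same, ← hY]
      rw [← integral_cellFun mX mZ, cf_same, integral_cellFun mX MeasurableSet.empty]
      simp [dt, cm]
    have h2 : (cm X Z univ).1 + (cm X Z univ).2.1 = volume.real X := by
      simp only [cm, inter_univ]
      have := measureReal_inter_add_sdiff (μ := (volume : Measure unitInterval)) (s := X) mZ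
      rw [← this]; ring
    have h3 : volume.real (X ∩ Y) + volume.real (X ∩ Yᶜ) = volume.real X := by
      have := measureReal_inter_add_sdiff (μ := (volume : Measure unitInterval)) (s := X) mY
      rw [← this, sdiff_eq]
    have h4 : (cm X Z univ).2.2 ≤ 1 := hle1 _
    rw [h1, h2, ← h3]
    have : ε * (cm X Z univ).2.2 ≤ ε * 1 := mul_le_mul_of_nonneg_left h4 e0.le
    linarith
  · simp only [α, cf_same, ← hZ]
    have h1 : (X \ Z) ∩ Z = ∅ := by ext x; simp
    have h2 : (X ∩ Z) ∩ Z = X ∩ Z := inter_eq_left.2 inter_subset_right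
    simp only [cm, h1, h2, inter_univ, measureReal_empty]

end Pool.Agent.Helper83.TwoA
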